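import Pool.Agent.Helper187_BSP.Final

/-!
# The bi-shortest path conjecture holds

Every finite digraph with two distinguished vertices `s`, `t`, a partition of the vertices
different from `t` into two players' positions and two positive cost functions has a
bi-shortest path.
-/

namespace Pool.Agent.Results.MP_9736fa_co.BiShortestPath

open Pool.Agent.Helper187_BSP

universe u

/-- The length of a vertex sequence with respect to the cost function `r`: the sum of `r` over
its consecutive pairs. -/
def pathLength {V : Type u} (r : V → V → ℝ) : List V → ℝ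
  | [] => 0
  | [_] => 0
  | a :: b :: l => r a b + pathLength r (b :: l)

/-- `P` is (the vertex sequence of) a directed path from `a` to `b` in the digraph with edge
relation `E`: consecutive vertices are joined by edges, no vertex is repeated, the first vertex
is `a` and the last vertex is `b`. -/
def IsDiPath {V : Type u} (E : V → V → Prop) (a b : V) (P : List V) : Prop :=
  P.IsChain E ∧ P.Nodup ∧ P.head? = some a ∧ P.getLast? = some b

/-- A strategy of the player owning the set `C` of vertices: it selects for every vertex of `C`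
one edge leaving it. -/
def IsStrategy {V : Type u} (E : V → V → Prop) (C : Set V) (f : V → V) : Prop :=
  ∀ v ∈ C, E v (f v)

/-- The edge relation of `G_f`: at every vertex of `C` all outgoing edges except the one selected
by `f` are deleted. -/
def restrictTo {V : Type u} (E : V → V → Prop) (C : Set V) (f : V → V) (u w : V) : Prop :=
  E u w ∧ (u ∈ C → w = f u)

/-- The set of directed `(s,t)`-paths `P` such that, for some strategy `f` of the player owning
`C`, `P` lies in `G_f` and has minimum `r`-length among all directed `(s,t)`-paths in `G_f`. -/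
def bestPaths {V : Type u} (E : V → V → Prop) (C : Set V) (r : V → V → ℝ) (s t : V) :
    Set (List V) :=
  {P | ∃ f : V → V, IsStrategy E C f ∧ IsDiPath (restrictTo E C f) s t P ∧
    ∀ Q : List V, IsDiPath (restrictTo E C f) s t Q → pathLength r P ≤ pathLength r Q}

theorem pathLength_eq {V : Type u} (r : V → V → ℝ) (l : List V) : pathLength r l = len r l := by
  induction l with
  | nil => rfl
  | cons a l ih =>
    cases l with
    | nil => rfl
    | cons b l => simp only [pathLength, len_cons_cons, ih]

theorem isDiPath_iff {V : Type u} (E : V → V → Prop) (a b : V) (P : List V) :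
    IsDiPath E a b P ↔ IsPath E a b P :=
  ⟨fun h => ⟨h.1, h.2.1, h.2.2.1, h.2.2.2⟩, fun h => ⟨h.chain, h.nodup, h.head, h.last⟩⟩

/-- **Bi-shortest path conjecture.** Let `G = (V, E)` be a finite digraph with vertices `s`, `t`
such that every vertex other than `t` has an outgoing edge, `t` has none, and there is a directed
path from `s` to `t`. Let `V₁, V₂` partition `V ∖ {t}` and let `r₁, r₂` be positive on all edges.
Then some directed `(s,t)`-path lies in both `𝒫₁` and `𝒫₂`. -/
theorem result {V : Type u} [Finite V] (E : V → V → Prop) (s t : V)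
    (hout : ∀ v, v ≠ t → ∃ w, E v w) (ht : ∀ w, ¬ E t w)
    (hpath : ∃ P, IsDiPath E s t P)
    (V₁ V₂ : Set V) (hcover : V₁ ∪ V₂ = {t}ᶜ) (hdisj : Disjoint V₁ V₂)
    (r₁ r₂ : V → V → ℝ) (hr₁ : ∀ u w, E u w → 0 < r₁ u w) (hr₂ : ∀ u w, E u w → 0 < r₂ u w) :
    (bestPaths E V₁ r₂ s t ∩ bestPaths E V₂ r₁ s t).Nonempty := by
  classical
  have : Fintype V := Fintype.ofFinite V
  set own : V → Bool := fun v => decide (v ∈ V₁) with hown
  set r : Bool → V → V → ℝ := fun b => if b then r₁ else r₂ with hr
  obtain ⟨P₀, hP₀⟩ := hpath
  have hpos : ∀ b u w, E u w → 0 < r b u w := by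
    intro b u w h
    cases b
    · simpa [hr] using hr₂ u w h
    · simpa [hr] using hr₁ u w h
  obtain ⟨P, hP⟩ := main own t _ E r s le_rfl hpos ht (rtg_of_path ((isDiPath_iff _ _ _ _).1 hP₀))
  have hmem₁ : ∀ v, own v = true ↔ v ∈ V₁ := by intro v; simp [hown]
  have hmem₂ : ∀ v, v ≠ t → (own v = false ↔ v ∈ V₂) := by
    intro v hv
    have hv' : v ∈ V₁ ∪ V₂ := by rw [hcover]; exact hv
    constructor
    · intro h
      rcases hv' with h1 | h1
      · simp [hown, h1] at h
      · exact h1
    · intro h
      have : v ∉ V₁ := fun h1 => Set.disjoint_left.1 hdisj h1 h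
      simp [hown, this]
  have hne : ∀ v, v ∈ V₁ ∪ V₂ → v ≠ t := by
    intro v hv; rw [hcover] at hv; exact hv
  have key : ∀ (b : Bool) (C : Set V), (∀ v, v ≠ t → (own v = b ↔ v ∈ C)) → (∀ v ∈ C, v ≠ t) →
      ∀ P, Good E own r b s t P → P ∈ bestPaths E C (r (!b)) s t := by
    rintro b C hC hCt P ⟨f, hf, hPf, hmin⟩
    have hiff : ∀ u w, Res E own b f u w ↔ restrictTo E C f u w := by
      intro u w
      unfold Res restrictTo
      constructor
      · rintro ⟨h1, h2⟩
        have hut : u ≠ t := by rintro rfl; exact ht _ h1
        exact ⟨h1, fun h => h2 ((hC u hut).2 h)⟩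
      · rintro ⟨h1, h2⟩
        have hut : u ≠ t := by rintro rfl; exact ht _ h1
        exact ⟨h1, fun h => h2 ((hC u hut).1 h)⟩
    refine ⟨f, ?_, ?_, ?_⟩
    · intro v hv
      have hvt := hCt v hv
      exact hf v ((hC v hvt).2 hv) (hout v hvt)
    · rw [isDiPath_iff]
      exact hPf.mono (fun u w h => (hiff u w).1 h)
    · intro Q hQ
      rw [isDiPath_iff] at hQ
      rw [pathLength_eq, pathLength_eq]
      exact hmin Q (hQ.mono (fun u w h => (hiff u w).2 h))
  refine ⟨P, ?_, ?_⟩
  · have := key true V₁ (fun v _ => hmem₁ v) (fun v hv => hne v (Or.inl hv)) P (hP true)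
    simpa [hr] using this
  · have := key false V₂ hmem₂ (fun v hv => hne v (Or.inr hv)) P (hP false)
    simpa [hr] using this

end Pool.Agent.Results.MP_9736fa_co.BiShortestPath
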